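import Pool.Agent.helper60.MW.Spec

set_option autoImplicit false

namespace Pool.Agent.MW

open MeasureTheory Set Pool.Agent.helper17.Worm

theorem MSC (hAVR : AVR_stmt) (hRXS : RXS_stmt) : MSC_stmt := by
  intro D hD L
  unfold mass
  have h1 := hRXS (fun x y => ENNReal.ofReal (D L x y / 4 ^ L)) L
  rw [h1]
  refine tsum_congr fun s => ?_
  have h2 := hAVR D hD 0 L s.1 s.2
  rw [zero_add] at h2
  have h3 : ∀ i ∈ Finset.range (2 ^ L), ∑ j ∈ Finset.range (2 ^ L),
      ENNReal.ofReal (D L (2 ^ L * s.1 + i) (2 ^ L * s.2 + j) / 4 ^ L) =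
      ENNReal.ofReal (∑ j ∈ Finset.range (2 ^ L),
        D L (2 ^ L * s.1 + i) (2 ^ L * s.2 + j) / 4 ^ L) := by
    intro i _
    rw [ENNReal.ofReal_sum_of_nonneg]
    intro j _
    exact div_nonneg (hD.nonneg _ _ _) (by positivity)
  rw [Finset.sum_congr rfl h3, ← ENNReal.ofReal_sum_of_nonneg]
  · congr 1
    have h4 : ∑ i ∈ Finset.range (2 ^ L), ∑ j ∈ Finset.range (2 ^ L),
        D L (2 ^ L * s.1 + i) (2 ^ L * s.2 + j) / 4 ^ L =
        (∑ i ∈ Finset.range (2 ^ L), ∑ j ∈ Finset.range (2 ^ L),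
          D L (2 ^ L * s.1 + i) (2 ^ L * s.2 + j)) / 4 ^ L := by
      rw [Finset.sum_div]
      refine Finset.sum_congr rfl fun i _ => ?_
      rw [Finset.sum_div]
    rw [h4, h2, pow_zero, div_one]
    field_simp
  · intro i _
    refine Finset.sum_nonneg fun j _ => ?_
    exact div_nonneg (hD.nonneg _ _ _) (by positivity)

end Pool.Agent.MW
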